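import Pool.Agent.Helper99.FS.Tests
import Pool.Agent.Helper13.FS.StageC
import Pool.Agent.Helper16.FS.SizeBias4

/-!
# Averaging the closing probability over the old blocks (route A for MP_75608d_al)
-/

set_option autoImplicit false
set_option linter.unusedSectionVars false

namespace Pool.Agent.Helper99.FS

open Finset Equiv Pool.Agent.Helper35.FS Pool.Agent.Helper4.FS Pool.Agent.Helper16.FS

variable {n q : ℕ}

/-- number of points where two permutations agree -/
def ag (u v : Perm (Fin n)) : ℕ := (univ.filter fun x => u x = v x).card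

theorem ag_eq_fx (u v : Perm (Fin n)) : ag u v = Pool.Agent.Helper13.FS.fx (v⁻¹ * u) := by
  unfold ag Pool.Agent.Helper13.FS.fx
  congr 1
  apply filter_congr
  intro x _
  rw [Perm.mul_apply, Perm.inv_eq_iff_eq]

theorem ag_le (u v : Perm (Fin n)) : ag u v ≤ n := by
  unfold ag
  exact (card_le_univ _).trans (by rw [Fintype.card_fin])

/-- falling factorials are at most powers -/
theorem desc_le (F n m : ℕ) (hF : F ≤ n) (hn : 0 < n) :
    (F.descFactorial m : ℝ) ≤ ((F : ℝ) / n) ^ m * (n.descFactorial m : ℝ) := by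
  have hn' : (0 : ℝ) < n := by exact_mod_cast hn
  have hF' : (F : ℝ) ≤ n := by exact_mod_cast hF
  induction m with
  | zero => simp
  | succ m ih =>
    rw [Nat.descFactorial_succ, Nat.descFactorial_succ]
    push_cast
    rcases le_or_gt F m with h | h
    · rw [Nat.sub_eq_zero_of_le h, Nat.cast_zero, zero_mul]
      positivity
    · have h1 : ((F - m : ℕ) : ℝ) = F - m := by rw [Nat.cast_sub h.le]
      have h2 : ((n - m : ℕ) : ℝ) = n - m := by rw [Nat.cast_sub (h.le.trans hF)]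
      have hm : (m : ℝ) < F := by exact_mod_cast h
      have h3 : (F : ℝ) - m ≤ (F / n) * (n - m) := by
        rw [div_mul_eq_mul_div, le_div_iff₀ hn']
        nlinarith [Nat.cast_nonneg (α := ℝ) m]
      rw [h1, h2]
      calc ((F : ℝ) - m) * (F.descFactorial m : ℝ) ≤
            ((F / n) * (n - m)) * (((F : ℝ) / n) ^ m * (n.descFactorial m : ℝ)) :=
            mul_le_mul h3 ih (Nat.cast_nonneg _) (by
              apply mul_nonneg (by positivity)
              linarith)
        _ = _ := by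
            rw [pow_succ]
            ring

theorem agree_adj (a b : ℕ → Perm (Fin n)) (i : ℕ) :
    (agree a b i (i + 1)).card = ag (a (i + 1)) (b (i + 1)) := by
  unfold agree ag
  congr 1
  apply filter_congr
  intro x _
  rw [show i + 1 - i = 1 by omega]
  simp [Pool.Agent.Helper4.FS.cst]

/-- the mean closing probability for fixed words -/
theorem close_mean (a b : ℕ → Perm (Fin n)) (g : ℕ → Option (Lt q)) (N : ℕ) (hN : 1 ≤ N)
    (hn : 600 * N ^ 4 ≤ n) :
    avg (fun y => (cnt (Cl (prog a g) (prog b g) (2 * N)) y : ℝ)) / n ≤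
      (∏ i ∈ T1 g N, ((ag (a (i + 1)) (b (i + 1)) : ℝ) / n)) + 600 * N ^ 4 / n := by
  classical
  have hN4 : N ≤ N ^ 4 := by
    calc N = N ^ 1 := (pow_one N).symm
      _ ≤ N ^ 4 := Nat.pow_le_pow_right hN (by norm_num)
  have hN24 : N ^ 2 ≤ N ^ 4 := Nat.pow_le_pow_right hN (by norm_num)
  have hN1 : 1 ≤ N ^ 4 := Nat.one_le_pow _ _ hN
  have hn1 : 8 * N + 1 < n := by omega
  have hn0 : 0 < n := by omega
  have hnr : (0 : ℝ) < n := by exact_mod_cast hn0
  have h1 := one_token a b g N (T1 g N) (fun i => i + 1)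
    (fun i hi => cutL_of_cut (T1_spec hi).2) hn1
  have h2 := avg_cnt (fun (y : World q n) (x : Fin n) => Cl (prog a g) (prog b g) (2 * N) y x)
  have hW : (0 : ℝ) < Fintype.card (World q n) := by
    have : 0 < Fintype.card (World q n) := Fintype.card_pos
    exact_mod_cast this
  have h3 : avg (fun y => (cnt (Cl (prog a g) (prog b g) (2 * N)) y : ℝ)) / n =
      (((Finset.univ : Finset (World q n × Fin n)).filter (fun w =>
      pos (prog a g) w.1 0 w.2 (2 * N) = pos (prog b g) w.1 0 w.2 (2 * N))).card : ℝ) /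
      (Fintype.card (World q n) * n) := by
    have h4 : (((Finset.univ : Finset (World q n × Fin n)).filter (fun w =>
      pos (prog a g) w.1 0 w.2 (2 * N) = pos (prog b g) w.1 0 w.2 (2 * N))).card : ℝ) =
      avg (fun y => (cnt (Cl (prog a g) (prog b g) (2 * N)) y : ℝ)) *
        (Fintype.card (World q n) : ℝ) := by
      rw [h2]
      refine congrArg (fun s : Finset (World q n × Fin n) => (s.card : ℝ)) ?_
      ext w
      rw [mem_filter, mem_filter]
      exact Iff.rfl
    rw [h4]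
    field_simp
  rw [h3]
  refine h1.trans ?_
  have hNr : (1 : ℝ) ≤ N := by exact_mod_cast hN
  have hnN : (600 : ℝ) * N ^ 4 ≤ n := by exact_mod_cast hn
  have hN4r : (N : ℝ) ≤ N ^ 4 := by exact_mod_cast hN4
  have hN24r : (N : ℝ) ^ 2 ≤ N ^ 4 := by exact_mod_cast hN24
  have hN1r : (1 : ℝ) ≤ (N : ℝ) ^ 4 := by exact_mod_cast hN1
  -- the product
  have h5 : ∏ i ∈ T1 g N, ((agree a b i (i + 1)).card : ℝ) / (n - 2 * N) ≤
      (∏ i ∈ T1 g N, ((ag (a (i + 1)) (b (i + 1)) : ℝ) / n)) + 8 * N ^ 2 / n := by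
    have h6 : (0 : ℝ) < n - 2 * N := by linarith
    have h7 : ∀ i ∈ T1 g N, ((agree a b i (i + 1)).card : ℝ) / (n - 2 * N) =
        ((ag (a (i + 1)) (b (i + 1)) : ℝ) / n) * (n / (n - 2 * N)) := by
      intro i _
      rw [agree_adj]
      field_simp
    rw [prod_congr rfl h7, prod_mul_distrib, prod_const]
    have h8 : #(T1 g N) ≤ N := by
      have : T1 g N ⊆ range N := by
        intro i hi
        rw [mem_range]
        have := (T1_spec hi).1
        omega
      exact (card_le_card this).trans (by rw [card_range])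
    have h9 : (n : ℝ) / (n - 2 * N) ≤ Real.exp (4 * N / n) := by
      have h10 : (n : ℝ) / (n - 2 * N) ≤ 1 + 4 * N / n := by
        rw [div_le_iff₀ h6]
        have h11 : (1 + 4 * (N : ℝ) / n) * (n - 2 * N) = n + 2 * N - 8 * N ^ 2 / n := by
          field_simp
          ring
        rw [h11]
        have h12 : 8 * (N : ℝ) ^ 2 / n ≤ 2 * N := by
          rw [div_le_iff₀ hnr]
          nlinarith
        linarith
      have h11 := Real.add_one_le_exp (4 * (N : ℝ) / n)
      linarith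
    have h10 : ((n : ℝ) / (n - 2 * N)) ^ #(T1 g N) ≤ 1 + 8 * N ^ 2 / n := by
      have h11 : (1 : ℝ) ≤ (n : ℝ) / (n - 2 * N) := by
        rw [le_div_iff₀ h6]
        linarith
      calc ((n : ℝ) / (n - 2 * N)) ^ #(T1 g N) ≤ ((n : ℝ) / (n - 2 * N)) ^ N :=
            pow_le_pow_right₀ h11 h8
        _ ≤ (Real.exp (4 * N / n)) ^ N := pow_le_pow_left₀ (by positivity) h9 N
        _ = Real.exp (4 * N ^ 2 / n) := by
            rw [← Real.exp_nat_mul]
            congr 1
            ring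
        _ ≤ 1 + 8 * N ^ 2 / n := by
            have h12 : (4 * (N : ℝ) ^ 2 / n) ≤ 1 / 2 := by
              rw [div_le_iff₀ hnr]
              linarith
            have h13 : 0 ≤ 4 * (N : ℝ) ^ 2 / n := by positivity
            have h14 : Real.exp (4 * (N : ℝ) ^ 2 / n) ≤ 1 / (1 - 4 * N ^ 2 / n) :=
              Real.exp_bound_div_one_sub_of_interval h13 (by linarith)
            refine h14.trans ?_
            rw [div_le_iff₀ (by linarith)]
            have h15 : 8 * (N : ℝ) ^ 2 / n = 2 * (4 * N ^ 2 / n) := by ring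
            rw [h15]
            nlinarith
    have h11 : 0 ≤ ∏ i ∈ T1 g N, ((ag (a (i + 1)) (b (i + 1)) : ℝ) / n) :=
      prod_nonneg fun i _ => by positivity
    have h12 : ∏ i ∈ T1 g N, ((ag (a (i + 1)) (b (i + 1)) : ℝ) / n) ≤ 1 := by
      apply prod_le_one
      · intro i _
        positivity
      · intro i _
        rw [div_le_one hnr]
        exact_mod_cast ag_le _ _
    have h13 : (0 : ℝ) ≤ 8 * N ^ 2 / n := by positivity
    calc _ ≤ (∏ i ∈ T1 g N, ((ag (a (i + 1)) (b (i + 1)) : ℝ) / n)) * (1 + 8 * N ^ 2 / n) :=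
          mul_le_mul_of_nonneg_left h10 h11
      _ = (∏ i ∈ T1 g N, ((ag (a (i + 1)) (b (i + 1)) : ℝ) / n)) +
          (∏ i ∈ T1 g N, ((ag (a (i + 1)) (b (i + 1)) : ℝ) / n)) * (8 * N ^ 2 / n) := by ring
      _ ≤ _ := by
          have := mul_le_mul_of_nonneg_right h12 h13
          linarith
  have h6 : ((4 * N : ℝ) ^ 4 + (2 * N) ^ 4) / (n - (8 * N + 1)) ≤ 544 * N ^ 4 / n := by
    have h7 : (n : ℝ) / 2 ≤ n - (8 * N + 1) := by linarith
    have h8 : (0 : ℝ) < n - (8 * N + 1) := by linarith [half_pos hnr]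
    rw [div_le_div_iff₀ h8 hnr]
    have h9 : ((4 * N : ℝ) ^ 4 + (2 * N) ^ 4) = 272 * N ^ 4 := by ring
    rw [h9]
    nlinarith
  have h7 : 8 * (N : ℝ) ^ 2 / n + 544 * N ^ 4 / n ≤ 600 * N ^ 4 / n := by
    rw [← add_div]
    apply div_le_div_of_nonneg_right _ hnr.le
    linarith
  linarith

/-- `1 - ∏ (1 - a_i)` against the sum -/
theorem exp_prod_le {I : Type*} [DecidableEq I] (T : Finset I) (p : I → ℝ)
    (h0 : ∀ i ∈ T, 0 ≤ p i) (h1 : ∀ i ∈ T, p i ≤ 1) (x : ℝ) (hx : 0 ≤ x) :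
    Real.exp (-(x * (1 - ∏ i ∈ T, p i))) ≤
      Real.exp (-(x / 2)) + ∏ i ∈ T, Real.exp (-(x / 2 * (1 - p i))) := by
  have hS : ∏ i ∈ T, p i ≤ Real.exp (-∑ i ∈ T, (1 - p i)) := by
    rw [← sum_neg_distrib, Real.exp_sum]
    apply prod_le_prod h0
    intro i _
    have := Real.add_one_le_exp (-(1 - p i))
    linarith
  rw [← Real.exp_sum]
  obtain ⟨S, hSd⟩ : ∃ S, S = ∑ i ∈ T, (1 - p i) := ⟨_, rfl⟩
  have hS0 : 0 ≤ S := by
    rw [hSd]
    exact sum_nonneg fun i hi => by linarith [h1 i hi]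
  have hs1 : ∑ i ∈ T, -(x / 2 * (1 - p i)) = -(x / 2 * S) := by
    rw [hSd, mul_sum, sum_neg_distrib]
  rw [hs1]
  rw [← hSd] at hS
  have h2 : Real.exp (-S) ≤ 1 / (1 + S) := by
    rw [Real.exp_neg, ← one_div]
    apply one_div_le_one_div_of_le (by linarith)
    linarith [Real.add_one_le_exp S]
  rcases le_or_gt 1 S with h3 | h3
  · have h4 : 1 / (1 + S) ≤ 1 / 2 := by
      apply one_div_le_one_div_of_le (by norm_num)
      linarith
    have h5 : x / 2 ≤ x * (1 - ∏ i ∈ T, p i) := by nlinarith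
    have h6 : Real.exp (-(x * (1 - ∏ i ∈ T, p i))) ≤ Real.exp (-(x / 2)) :=
      Real.exp_le_exp.2 (by linarith)
    linarith [Real.exp_pos (-(x / 2 * S))]
  · have h4 : 1 / (1 + S) ≤ 1 - S / 2 := by
      rw [div_le_iff₀ (by linarith)]
      nlinarith
    have h5 : x / 2 * S ≤ x * (1 - ∏ i ∈ T, p i) := by nlinarith
    have h6 : Real.exp (-(x * (1 - ∏ i ∈ T, p i))) ≤ Real.exp (-(x / 2 * S)) :=
      Real.exp_le_exp.2 (by linarith)
    linarith [Real.exp_pos (-(x / 2))]

/-- extension of finitely many blocks by the identity -/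
def ex {N : ℕ} (a : Fin N → Perm (Fin n)) (i : ℕ) : Perm (Fin n) :=
  if h : i < N then a ⟨i, h⟩ else 1

/-- the weight of a pair of block sequences -/
noncomputable def wt (μ : Perm (Fin n) → ℝ) {N : ℕ} (a b : Fin N → Perm (Fin n)) : ℝ :=
  (∏ i, μ (a i)) * ∏ i, μ (b i)

/-- expectations of products over tests -/
theorem sum_tests (μ : Perm (Fin n) → ℝ) (h1 : ∑ u, μ u = 1) {N : ℕ} (T : Finset ℕ)
    (hT : ∀ i ∈ T, i + 1 < N) (ψ : Perm (Fin n) → Perm (Fin n) → ℝ) :
    ∑ a : Fin N → Perm (Fin n), ∑ b : Fin N → Perm (Fin n), wt μ a b *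
      ∏ i ∈ T, ψ (ex a (i + 1)) (ex b (i + 1)) =
      (∑ u, ∑ v, μ u * μ v * ψ u v) ^ T.card := by
  classical
  obtain ⟨T', hT'⟩ : ∃ T' : Finset (Fin N), T' = univ.filter fun k : Fin N =>
      (k : ℕ) ∈ T.image (fun i => i + 1) := ⟨_, rfl⟩
  have hmem : ∀ i (hi : i ∈ T), (⟨i + 1, hT i hi⟩ : Fin N) ∈ T' := by
    intro i hi
    rw [hT', mem_filter]
    exact ⟨mem_univ _, mem_image_of_mem _ hi⟩
  have hinj : ∀ i (hi : i ∈ T) j (hj : j ∈ T),
      (⟨i + 1, hT i hi⟩ : Fin N) = ⟨j + 1, hT j hj⟩ → i = j := by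
    intro i hi j hj h
    have : i + 1 = j + 1 := congrArg Fin.val h
    omega
  have hsurj : ∀ k ∈ T', ∃ i, ∃ hi : i ∈ T, (⟨i + 1, hT i hi⟩ : Fin N) = k := by
    intro k hk
    rw [hT', mem_filter] at hk
    obtain ⟨i, hi, hik⟩ := mem_image.1 hk.2
    exact ⟨i, hi, Fin.ext hik⟩
  have hcard : T.card = T'.card :=
    card_bij (fun i hi => (⟨i + 1, hT i hi⟩ : Fin N)) hmem hinj hsurj
  have hprod : ∀ a b : Fin N → Perm (Fin n),
      ∏ i ∈ T, ψ (ex a (i + 1)) (ex b (i + 1)) = ∏ k ∈ T', ψ (a k) (b k) := by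
    intro a b
    refine prod_bij (fun i hi => (⟨i + 1, hT i hi⟩ : Fin N)) hmem hinj hsurj ?_
    intro i hi
    unfold ex
    rw [dif_pos (hT i hi), dif_pos (hT i hi)]
  obtain ⟨f, hf⟩ : ∃ f : Fin N → Perm (Fin n) × Perm (Fin n) → ℝ, f =
      fun (k : Fin N) (p : Perm (Fin n) × Perm (Fin n)) =>
      μ p.1 * μ p.2 * (if k ∈ T' then ψ p.1 p.2 else 1) := ⟨_, rfl⟩
  have h2 : ∀ a b : Fin N → Perm (Fin n), wt μ a b *
      ∏ i ∈ T, ψ (ex a (i + 1)) (ex b (i + 1)) = ∏ k, f k (a k, b k) := by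
    intro a b
    rw [hf, hprod]
    simp only
    rw [prod_mul_distrib, prod_mul_distrib]
    unfold wt
    congr 1
    rw [← prod_filter]
    apply prod_congr _ fun _ _ => rfl
    ext k
    simp
  have h3 : ∑ a : Fin N → Perm (Fin n), ∑ b : Fin N → Perm (Fin n), ∏ k, f k (a k, b k) =
      ∏ k, ∑ p, f k p := by
    rw [Fintype.prod_sum, ← Fintype.sum_prod_type']
    refine Fintype.sum_equiv
      (Equiv.arrowProdEquivProdArrow (Fin N) (fun _ => Perm (Fin n)) (fun _ => Perm (Fin n))).symm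
      _ _ ?_
    intro x
    rfl
  rw [sum_congr rfl fun a _ => sum_congr rfl fun b _ => h2 a b, h3]
  have h4 : ∀ k, ∑ p, f k p = if k ∈ T' then ∑ u, ∑ v, μ u * μ v * ψ u v else 1 := by
    intro k
    rw [hf, Fintype.sum_prod_type]
    split_ifs with hk
    · simp only [hk, if_true]
    · simp only [hk, if_false, mul_one]
      rw [← sum_mul_sum, h1, one_mul]
  rw [prod_congr rfl fun k _ => h4 k, prod_ite_mem, univ_inter, prod_const, hcard]

end Pool.Agent.Helper99.FS
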