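import Pool.Agent.Helper99.FS.Avg

/-!
# Averaging the closing probability over the old blocks: the two regimes
-/

set_option autoImplicit false
set_option linter.unusedSectionVars false

namespace Pool.Agent.Helper99.FS

open Finset Equiv Pool.Agent.Helper35.FS Pool.Agent.Helper4.FS Pool.Agent.Helper16.FS

variable {n q : ℕ}

/-- one pair of blocks -/
theorem block_le (μ : Perm (Fin n) → ℝ) (h0 : ∀ u, 0 ≤ μ u) (h1 : ∑ u, μ u = 1) (m A : ℕ)
    (hA : 2 * (m + A) ≤ n) (hn : 0 < n) (R : ℝ)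
    (hR : ∑ u, ∑ v, μ u * μ v * ((ag u v).descFactorial m : ℝ) ≤ R * (n.descFactorial m : ℝ))
    (c : ℝ) (hc : 0 ≤ c) :
    ∑ u, ∑ v, μ u * μ v * Real.exp (-(c * (1 - (ag u v : ℝ) / n))) ≤
      R * Real.exp (2 * m * A / n) + Real.exp (-(c * ((A + 1) / n))) := by
  have hn' : (0 : ℝ) < n := by exact_mod_cast hn
  have hd : (0 : ℝ) < ((n - A).descFactorial m : ℝ) := by
    have h2 : m ≤ n - A := by omega
    exact_mod_cast Nat.pos_of_ne_zero fun h => by
      rw [Nat.descFactorial_eq_zero_iff_lt] at h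
      omega
  have hdn : (0 : ℝ) < (n.descFactorial m : ℝ) := by
    exact_mod_cast Nat.pos_of_ne_zero fun h => by
      rw [Nat.descFactorial_eq_zero_iff_lt] at h
      omega
  have hR0 : 0 ≤ R := by
    by_contra h
    push Not at h
    have h2 : R * (n.descFactorial m : ℝ) < 0 := mul_neg_of_neg_of_pos h hdn
    have h3 : 0 ≤ ∑ u, ∑ v, μ u * μ v * ((ag u v).descFactorial m : ℝ) :=
      sum_nonneg fun u _ => sum_nonneg fun v _ =>
        mul_nonneg (mul_nonneg (h0 u) (h0 v)) (Nat.cast_nonneg _)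
    linarith
  -- probability of large agreement
  obtain ⟨P, hP⟩ : ∃ P, P = ∑ u, ∑ v, (if n ≤ ag u v + A then μ u * μ v else 0) := ⟨_, rfl⟩
  have hPle : P ≤ R * Real.exp (2 * m * A / n) := by
    have h2 : P * ((n - A).descFactorial m : ℝ) ≤
        ∑ u, ∑ v, μ u * μ v * ((ag u v).descFactorial m : ℝ) := by
      rw [hP, sum_mul]
      apply sum_le_sum
      intro u _
      rw [sum_mul]
      apply sum_le_sum
      intro v _
      split_ifs with h
      · apply mul_le_mul_of_nonneg_left _ (mul_nonneg (h0 u) (h0 v))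
        exact_mod_cast Nat.descFactorial_le m (by omega)
      · rw [zero_mul]
        exact mul_nonneg (mul_nonneg (h0 u) (h0 v)) (Nat.cast_nonneg _)
    have h3 := Pool.Agent.Helper13.FS.descFactorial_ratio n m A hA hn
    have h4 : P * ((n - A).descFactorial m : ℝ) ≤
        (R * Real.exp (2 * m * A / n)) * ((n - A).descFactorial m : ℝ) := by
      calc _ ≤ R * (n.descFactorial m : ℝ) := h2.trans hR
        _ ≤ R * (Real.exp (2 * m * A / n) * ((n - A).descFactorial m : ℝ)) :=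
          mul_le_mul_of_nonneg_left h3 hR0
        _ = _ := by ring
    exact le_of_mul_le_mul_right h4 hd
  have hterm : ∀ u v, μ u * μ v * Real.exp (-(c * (1 - (ag u v : ℝ) / n))) ≤
      (if n ≤ ag u v + A then μ u * μ v else 0) +
        μ u * μ v * Real.exp (-(c * ((A + 1) / n))) := by
    intro u v
    have h2 : 0 ≤ μ u * μ v := mul_nonneg (h0 u) (h0 v)
    have hag : (ag u v : ℝ) ≤ n := by exact_mod_cast ag_le u v
    split_ifs with h
    · have h3 : Real.exp (-(c * (1 - (ag u v : ℝ) / n))) ≤ 1 := by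
        rw [Real.exp_le_one_iff]
        have h4 : (ag u v : ℝ) / n ≤ 1 := (div_le_one hn').2 hag
        nlinarith
      have h4 := mul_le_mul_of_nonneg_left h3 h2
      have h5 : 0 ≤ μ u * μ v * Real.exp (-(c * ((A + 1) / n))) :=
        mul_nonneg h2 (Real.exp_pos _).le
      linarith
    · rw [zero_add]
      apply mul_le_mul_of_nonneg_left _ h2
      apply Real.exp_le_exp.2
      have h3 : ((A : ℝ) + 1) / n ≤ 1 - (ag u v : ℝ) / n := by
        rw [le_sub_iff_add_le, ← add_div, div_le_one hn']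
        have : ag u v + A + 1 ≤ n := by omega
        have h4 : ((ag u v : ℝ) + A + 1) ≤ n := by exact_mod_cast this
        linarith
      have h4 := mul_le_mul_of_nonneg_left h3 hc
      linarith
  calc ∑ u, ∑ v, μ u * μ v * Real.exp (-(c * (1 - (ag u v : ℝ) / n))) ≤
      ∑ u, ∑ v, ((if n ≤ ag u v + A then μ u * μ v else 0) +
        μ u * μ v * Real.exp (-(c * ((A + 1) / n)))) :=
        sum_le_sum fun u _ => sum_le_sum fun v _ => hterm u v
    _ = P + (∑ u, ∑ v, μ u * μ v) * Real.exp (-(c * ((A + 1) / n))) := by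
        rw [hP, sum_mul, ← sum_add_distrib]
        apply sum_congr rfl
        intro u _
        rw [sum_mul, ← sum_add_distrib]
    _ = P + Real.exp (-(c * ((A + 1) / n))) := by
        rw [← sum_mul_sum, h1, one_mul, one_mul]
    _ ≤ _ := by linarith

/-- means and sums -/
theorem avg_sum_comm {I : Type*} [Fintype I] (w : I → I → ℝ) (F : I → I → World q n → ℝ) :
    avg (fun y => ∑ a, ∑ b, w a b * F a b y) = ∑ a, ∑ b, w a b * avg (F a b) := by
  unfold avg
  rw [sum_comm, sum_div]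
  apply sum_congr rfl
  intro a _
  rw [sum_comm, sum_div]
  apply sum_congr rfl
  intro b _
  rw [← mul_sum, mul_div_assoc]

theorem avg_mono {F G : World q n → ℝ} (h : ∀ y, F y ≤ G y) : avg F ≤ avg G := by
  unfold avg
  apply div_le_div_of_nonneg_right (sum_le_sum fun y _ => h y) (Nat.cast_nonneg _)

theorem avg_mul_const (F : World q n → ℝ) (c : ℝ) : avg (fun y => F y * c) = avg F * c := by
  unfold avg
  rw [← sum_mul, mul_div_right_comm]

theorem wt_nn (μ : Perm (Fin n) → ℝ) (h0 : ∀ u, 0 ≤ μ u) {N : ℕ} (a b : Fin N → Perm (Fin n)) :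
    0 ≤ wt μ a b :=
  mul_nonneg (prod_nonneg fun i _ => h0 _) (prod_nonneg fun i _ => h0 _)

theorem wt_sum (μ : Perm (Fin n) → ℝ) (h1 : ∑ u, μ u = 1) (N : ℕ) :
    ∑ a : Fin N → Perm (Fin n), ∑ b : Fin N → Perm (Fin n), wt μ a b = 1 := by
  have h := sum_tests μ h1 (N := N) ∅ (by simp) (fun _ _ => 1)
  simpa using h

theorem T1_lt {g : ℕ → Option (Lt q)} {N : ℕ} : ∀ i ∈ T1 g N, i + 1 < N :=
  fun i hi => (T1_spec hi).1

/-- **First regime.** -/
theorem avg_lower (μ : Perm (Fin n) → ℝ) (h0 : ∀ u, 0 ≤ μ u) (h1 : ∑ u, μ u = 1) (m A N : ℕ)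
    (hN : 1 ≤ N) (hm : 1 ≤ m) (hn : 600 * N ^ 4 * m ≤ n) (hA : 2 * (m + A) ≤ n) (R : ℝ)
    (hR : ∑ u, ∑ v, μ u * μ v * ((ag u v).descFactorial m : ℝ) ≤ R * (n.descFactorial m : ℝ))
    (g : ℕ → Option (Lt q)) :
    avg (fun y => ∑ a : Fin N → Perm (Fin n), ∑ b : Fin N → Perm (Fin n), wt μ a b *
      ((cnt (Cl (prog (ex a) g) (prog (ex b) g) (2 * N)) y).descFactorial m : ℝ)) ≤
      2 * (Real.exp (-(m / 12)) + (R * Real.exp (2 * m * A / n) +
        Real.exp (-((m / 12) * ((A + 1) / n)))) ^ #(T1 g N)) * (n.descFactorial m : ℝ) := by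
  have hN1 : 1 ≤ N ^ 4 := Nat.one_le_pow _ _ hN
  have hN24 : N ^ 2 ≤ N ^ 4 := Nat.pow_le_pow_right hN (by norm_num)
  have hn0 : 0 < n := by
    have : 0 < 600 * N ^ 4 * m := by positivity
    omega
  have hnr : (0 : ℝ) < n := by exact_mod_cast hn0
  have hn600 : 600 * N ^ 4 ≤ n := by
    calc 600 * N ^ 4 = 600 * N ^ 4 * 1 := (mul_one _).symm
      _ ≤ 600 * N ^ 4 * m := Nat.mul_le_mul le_rfl hm
      _ ≤ n := hn
  have hn8 : 8 * N ^ 2 * m ≤ n := by
    calc 8 * N ^ 2 * m ≤ 600 * N ^ 4 * m := Nat.mul_le_mul (by omega) le_rfl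
      _ ≤ n := hn
  have hnm : (600 : ℝ) * N ^ 4 * m ≤ n := by exact_mod_cast hn
  have hD : (0 : ℝ) ≤ (n.descFactorial m : ℝ) := Nat.cast_nonneg _
  have key : ∀ a b : Fin N → Perm (Fin n),
      avg (fun y => ((cnt (Cl (prog (ex a) g) (prog (ex b) g) (2 * N)) y).descFactorial m : ℝ)) ≤
      2 * (Real.exp (-(m / 12)) + ∏ i ∈ T1 g N, Real.exp (-((m / 12) *
        (1 - (ag (ex a (i + 1)) (ex b (i + 1)) : ℝ) / n)))) * (n.descFactorial m : ℝ) := by
    intro a b
    have h2 : avg (fun y => ((cnt (Cl (prog (ex a) g) (prog (ex b) g) (2 * N))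
        y).descFactorial m : ℝ)) ≤
        avg (fun y => ((cnt (Cl (prog (ex a) g) (prog (ex b) g) (2 * N)) y : ℝ) / n) ^ m) *
          (n.descFactorial m : ℝ) := by
      rw [← avg_mul_const]
      apply avg_mono
      intro y
      apply desc_le _ _ _ _ hn0
      have := cnt_le (Cl (prog (ex a) g) (prog (ex b) g) (2 * N)) y
      rwa [Fintype.card_fin] at this
    refine h2.trans (mul_le_mul_of_nonneg_right ?_ hD)
    refine (word_lower (ex a) (ex b) g N m hn0 hn8).trans ?_
    have h3 := close_mean (ex a) (ex b) g N hN hn600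
    obtain ⟨p, hp⟩ : ∃ p : ℝ, p = avg (fun y =>
      (cnt (Cl (prog (ex a) g) (prog (ex b) g) (2 * N)) y : ℝ)) / n := ⟨_, rfl⟩
    rw [← hp] at h3 ⊢
    obtain ⟨Zp, hZ⟩ : ∃ Zp : ℝ, Zp = ∏ i ∈ T1 g N,
      ((ag (ex a (i + 1)) (ex b (i + 1)) : ℝ) / n) := ⟨_, rfl⟩
    rw [← hZ] at h3
    have h4 : (m : ℝ) * (600 * N ^ 4 / n) ≤ 1 := by
      rw [← mul_div_assoc, div_le_one hnr]
      linarith
    have h5 : -((m : ℝ) * (1 - p) / 6) ≤ 1 / 6 + -(m / 6 * (1 - Zp)) := by
      have hm0 : (0 : ℝ) ≤ m := Nat.cast_nonneg _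
      nlinarith [mul_le_mul_of_nonneg_left h3 hm0]
    have h6 : Real.exp (1 / 6) ≤ 2 := by
      have := Real.exp_bound_div_one_sub_of_interval (x := 1 / 6) (by norm_num) (by norm_num)
      refine this.trans ?_
      norm_num
    calc Real.exp (-((m : ℝ) * (1 - p) / 6)) ≤ Real.exp (1 / 6 + -(m / 6 * (1 - Zp))) :=
          Real.exp_le_exp.2 h5
      _ = Real.exp (1 / 6) * Real.exp (-(m / 6 * (1 - Zp))) := Real.exp_add _ _
      _ ≤ 2 * Real.exp (-(m / 6 * (1 - Zp))) :=
          mul_le_mul_of_nonneg_right h6 (Real.exp_pos _).le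
      _ ≤ _ := by
          apply mul_le_mul_of_nonneg_left _ (by norm_num)
          have h7 := exp_prod_le (T1 g N)
            (fun i => ((ag (ex a (i + 1)) (ex b (i + 1)) : ℝ) / n))
            (fun i _ => by positivity)
            (fun i _ => by
              rw [div_le_one hnr]
              exact_mod_cast ag_le _ _) (m / 6 : ℝ) (by positivity)
          rw [← hZ] at h7
          have h8 : (m : ℝ) / 6 / 2 = m / 12 := by ring
          rw [h8] at h7
          exact h7
  rw [avg_sum_comm]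
  calc _ ≤ ∑ a : Fin N → Perm (Fin n), ∑ b : Fin N → Perm (Fin n), wt μ a b *
      (2 * (Real.exp (-(m / 12)) + ∏ i ∈ T1 g N, Real.exp (-((m / 12) *
        (1 - (ag (ex a (i + 1)) (ex b (i + 1)) : ℝ) / n)))) * (n.descFactorial m : ℝ)) :=
        sum_le_sum fun a _ => sum_le_sum fun b _ =>
          mul_le_mul_of_nonneg_left (key a b) (wt_nn μ h0 a b)
    _ = 2 * (Real.exp (-(m / 12)) + (∑ u, ∑ v, μ u * μ v * Real.exp (-((m / 12) *
        (1 - (ag u v : ℝ) / n)))) ^ #(T1 g N)) * (n.descFactorial m : ℝ) := by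
        rw [← sum_tests μ h1 (T1 g N) T1_lt
          (fun u v => Real.exp (-((m / 12) * (1 - (ag u v : ℝ) / n))))]
        have h2 : ∀ a b : Fin N → Perm (Fin n), wt μ a b *
            (2 * (Real.exp (-(m / 12)) + ∏ i ∈ T1 g N, Real.exp (-((m / 12) *
              (1 - (ag (ex a (i + 1)) (ex b (i + 1)) : ℝ) / n)))) * (n.descFactorial m : ℝ)) =
            (2 * Real.exp (-(m / 12)) * (n.descFactorial m : ℝ)) * wt μ a b +
            (2 * (n.descFactorial m : ℝ)) * (wt μ a b * ∏ i ∈ T1 g N, Real.exp (-((m / 12) *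
              (1 - (ag (ex a (i + 1)) (ex b (i + 1)) : ℝ) / n)))) := fun a b => by ring
        rw [sum_congr rfl fun a _ => sum_congr rfl fun b _ => h2 a b]
        simp only [sum_add_distrib, ← mul_sum]
        rw [wt_sum μ h1 N]
        ring
    _ ≤ _ := by
        apply mul_le_mul_of_nonneg_right _ hD
        apply mul_le_mul_of_nonneg_left _ (by norm_num)
        apply add_le_add le_rfl
        apply pow_le_pow_left₀
        · exact sum_nonneg fun u _ => sum_nonneg fun v _ =>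
            mul_nonneg (mul_nonneg (h0 u) (h0 v)) (Real.exp_pos _).le
        · exact block_le μ h0 h1 m A hA hn0 R hR (m / 12) (by positivity)

/-- **Second regime.** -/
theorem avg_upper (μ : Perm (Fin n) → ℝ) (h0 : ∀ u, 0 ≤ μ u) (h1 : ∑ u, μ u = 1) (m A N : ℕ)
    (hN : 1 ≤ N) (hm : 1 ≤ m) (hn : 600 * N ^ 4 ≤ n) (hA : 2 * (m + A) ≤ n) (R : ℝ)
    (hR : ∑ u, ∑ v, μ u * μ v * ((ag u v).descFactorial m : ℝ) ≤ R * (n.descFactorial m : ℝ))
    (g : ℕ → Option (Lt q)) :
    avg (fun y => ∑ a : Fin N → Perm (Fin n), ∑ b : Fin N → Perm (Fin n), wt μ a b *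
      ((cnt (Cl (prog (ex a) g) (prog (ex b) g) (2 * N)) y).descFactorial m : ℝ)) ≤
      2 ^ m * ((R * Real.exp (2 * m * A / n) +
        Real.exp (-(m * ((A + 1) / n)))) ^ #(T1 g N) + (608 * N ^ 4 * m / n) ^ m) *
        (n.descFactorial m : ℝ) := by
  have hN1 : 1 ≤ N ^ 4 := Nat.one_le_pow _ _ hN
  have hN24 : N ^ 2 ≤ N ^ 4 := Nat.pow_le_pow_right hN (by norm_num)
  have hn0 : 0 < n := by omega
  have hnr : (0 : ℝ) < n := by exact_mod_cast hn0
  have hD : (0 : ℝ) ≤ (n.descFactorial m : ℝ) := Nat.cast_nonneg _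
  have hN24r : (N : ℝ) ^ 2 ≤ N ^ 4 := by exact_mod_cast hN24
  have hmr : (1 : ℝ) ≤ m := by exact_mod_cast hm
  have key : ∀ a b : Fin N → Perm (Fin n),
      avg (fun y => ((cnt (Cl (prog (ex a) g) (prog (ex b) g) (2 * N)) y).descFactorial m : ℝ)) ≤
      2 ^ m * ((∏ i ∈ T1 g N, Real.exp (-(m *
        (1 - (ag (ex a (i + 1)) (ex b (i + 1)) : ℝ) / n)))) + (608 * N ^ 4 * m / n) ^ m) *
        (n.descFactorial m : ℝ) := by
    intro a b
    have h2 : avg (fun y => ((cnt (Cl (prog (ex a) g) (prog (ex b) g) (2 * N))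
        y).descFactorial m : ℝ)) ≤
        avg (fun y => ((cnt (Cl (prog (ex a) g) (prog (ex b) g) (2 * N)) y : ℝ) / n) ^ m) *
          (n.descFactorial m : ℝ) := by
      rw [← avg_mul_const]
      apply avg_mono
      intro y
      apply desc_le _ _ _ _ hn0
      have := cnt_le (Cl (prog (ex a) g) (prog (ex b) g) (2 * N)) y
      rwa [Fintype.card_fin] at this
    refine h2.trans (mul_le_mul_of_nonneg_right ?_ hD)
    refine (word_upper (ex a) (ex b) g N m).trans ?_
    have h3 := close_mean (ex a) (ex b) g N hN hn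
    obtain ⟨Zp, hZ⟩ : ∃ Zp : ℝ, Zp = ∏ i ∈ T1 g N,
      ((ag (ex a (i + 1)) (ex b (i + 1)) : ℝ) / n) := ⟨_, rfl⟩
    rw [← hZ] at h3
    have hZ0 : 0 ≤ Zp := by
      rw [hZ]
      exact prod_nonneg fun i _ => by positivity
    have hδ : (0 : ℝ) ≤ 608 * N ^ 4 * m / n := by positivity
    have h4 : (avg (fun y => (cnt (Cl (prog (ex a) g) (prog (ex b) g) (2 * N)) y : ℝ)) +
        8 * N ^ 2 * m) / n ≤ Zp + 608 * N ^ 4 * m / n := by
      rw [add_div]
      have h5 : 600 * (N : ℝ) ^ 4 / n + 8 * N ^ 2 * m / n ≤ 608 * N ^ 4 * m / n := by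
        rw [← add_div]
        apply div_le_div_of_nonneg_right _ hnr.le
        have h6 : (N : ℝ) ^ 4 ≤ N ^ 4 * m := le_mul_of_one_le_right (by positivity) hmr
        have h7 : (N : ℝ) ^ 2 * m ≤ N ^ 4 * m :=
          mul_le_mul_of_nonneg_right hN24r (by positivity)
        nlinarith
      linarith
    have h5 : (0 : ℝ) ≤ (avg (fun y => (cnt (Cl (prog (ex a) g) (prog (ex b) g) (2 * N)) y : ℝ)) +
        8 * N ^ 2 * m) / n := by
      apply div_nonneg _ hnr.le
      apply add_nonneg _ (by positivity)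
      unfold avg
      apply div_nonneg _ (Nat.cast_nonneg _)
      exact sum_nonneg fun y _ => Nat.cast_nonneg _
    calc _ ≤ (Zp + 608 * N ^ 4 * m / n) ^ m := pow_le_pow_left₀ h5 h4 m
      _ ≤ 2 ^ (m - 1) * (Zp ^ m + (608 * N ^ 4 * m / n) ^ m) := add_pow_le hZ0 hδ m
      _ ≤ 2 ^ m * (Zp ^ m + (608 * N ^ 4 * m / n) ^ m) := by
          apply mul_le_mul_of_nonneg_right _ (by positivity)
          exact pow_le_pow_right₀ (by norm_num) (Nat.sub_le _ _)
      _ ≤ _ := by
          apply mul_le_mul_of_nonneg_left _ (by positivity)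
          apply add_le_add _ le_rfl
          rw [hZ, ← prod_pow]
          apply prod_le_prod
          · intro i _
            positivity
          · intro i _
            have h6 := Real.add_one_le_exp (-(1 - (ag (ex a (i + 1)) (ex b (i + 1)) : ℝ) / n))
            have h7 : ((ag (ex a (i + 1)) (ex b (i + 1)) : ℝ) / n) ^ m ≤
                (Real.exp (-(1 - (ag (ex a (i + 1)) (ex b (i + 1)) : ℝ) / n))) ^ m :=
              pow_le_pow_left₀ (by positivity) (by linarith) m
            refine h7.trans (le_of_eq ?_)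
            rw [← Real.exp_nat_mul]
            congr 1
            ring
  rw [avg_sum_comm]
  calc _ ≤ ∑ a : Fin N → Perm (Fin n), ∑ b : Fin N → Perm (Fin n), wt μ a b *
      (2 ^ m * ((∏ i ∈ T1 g N, Real.exp (-(m *
        (1 - (ag (ex a (i + 1)) (ex b (i + 1)) : ℝ) / n)))) + (608 * N ^ 4 * m / n) ^ m) *
        (n.descFactorial m : ℝ)) :=
        sum_le_sum fun a _ => sum_le_sum fun b _ =>
          mul_le_mul_of_nonneg_left (key a b) (wt_nn μ h0 a b)
    _ = 2 ^ m * ((∑ u, ∑ v, μ u * μ v * Real.exp (-(m *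
        (1 - (ag u v : ℝ) / n)))) ^ #(T1 g N) + (608 * N ^ 4 * m / n) ^ m) *
        (n.descFactorial m : ℝ) := by
        rw [← sum_tests μ h1 (T1 g N) T1_lt
          (fun u v => Real.exp (-(m * (1 - (ag u v : ℝ) / n))))]
        have h2 : ∀ a b : Fin N → Perm (Fin n), wt μ a b *
            (2 ^ m * ((∏ i ∈ T1 g N, Real.exp (-(m *
              (1 - (ag (ex a (i + 1)) (ex b (i + 1)) : ℝ) / n)))) +
              (608 * N ^ 4 * m / n) ^ m) * (n.descFactorial m : ℝ)) =
            (2 ^ m * (608 * N ^ 4 * m / n) ^ m * (n.descFactorial m : ℝ)) * wt μ a b +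
            (2 ^ m * (n.descFactorial m : ℝ)) * (wt μ a b * ∏ i ∈ T1 g N, Real.exp (-(m *
              (1 - (ag (ex a (i + 1)) (ex b (i + 1)) : ℝ) / n)))) := fun a b => by ring
        rw [sum_congr rfl fun a _ => sum_congr rfl fun b _ => h2 a b]
        simp only [sum_add_distrib, ← mul_sum]
        rw [wt_sum μ h1 N]
        ring
    _ ≤ _ := by
        apply mul_le_mul_of_nonneg_right _ hD
        apply mul_le_mul_of_nonneg_left _ (by positivity)
        apply add_le_add _ le_rfl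
        apply pow_le_pow_left₀
        · exact sum_nonneg fun u _ => sum_nonneg fun v _ =>
            mul_nonneg (mul_nonneg (h0 u) (h0 v)) (Real.exp_pos _).le
        · exact block_le μ h0 h1 m A hA hn0 R hR m (by positivity)

end Pool.Agent.Helper99.FS
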