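import Pool.Agent.Helper35.FS.CutW
import Pool.Agent.Helper4.FS.One

/-!
# Adjacent cuts (route A for MP_75608d_al)
-/

set_option autoImplicit false
set_option linter.unusedSectionVars false

namespace Pool.Agent.Helper99.FS

open Finset Pool.Agent.Helper35.FS

section
variable {Q : Type*} [DecidableEq Q] [Fintype Q]

open Classical in
/-- the adjacent cuts: cuts whose next slot is not lazy -/
noncomputable def T1 (g : ℕ → Option (Q × Bool)) (N : ℕ) : Finset ℕ :=
  (cuts g N).filter fun i => g (i + 1) ≠ none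

theorem T1_spec {g : ℕ → Option (Q × Bool)} {N i : ℕ} (h : i ∈ T1 g N) :
    i + 1 < N ∧ Cut g N i (i + 1) := by
  classical
  unfold T1 cuts at h
  rw [mem_filter, mem_filter] at h
  obtain ⟨⟨_, j, hj⟩, h2⟩ := h
  have h3 : j = i + 1 := by
    by_contra h3
    have h4 := hj.lt
    exact h2 (hj.lazy (i + 1) (by omega) (by omega))
  subst h3
  exact ⟨hj.jN, hj⟩

theorem T1_card (g : ℕ → Option (Q × Bool)) (N : ℕ) :
    N ≤ #(T1 g N) + 2 * (lz g N + 4 * pops g N) + 1 := by
  classical
  have h1 := cuts_ge g N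
  have h2 : #(cuts g N) ≤ #(T1 g N) + lz g N := by
    have h3 : #((cuts g N).filter fun i => ¬ (g (i + 1) ≠ none)) ≤ lz g N := by
      unfold lz
      apply card_le_card_of_injOn (fun i => i + 1)
      · intro i hi
        rw [mem_coe, mem_filter] at hi
        rw [mem_coe, mem_filter, mem_range]
        obtain ⟨hc, hn⟩ := hi
        push Not at hn
        refine ⟨?_, hn⟩
        unfold cuts at hc
        rw [mem_filter] at hc
        obtain ⟨_, j, hj⟩ := hc
        have h4 := hj.lt
        have h5 := hj.jN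
        show i + 1 < N
        omega
      · intro i _ j _ h
        have h' : i + 1 = j + 1 := h
        omega
    have h4 := card_filter_add_card_filter_not (s := cuts g N) (fun i => g (i + 1) ≠ none)
    unfold T1
    omega
  omega

/-- the patterns with few adjacent cuts -/
def Few1 {N : ℕ} (g : Fin N → Option (Q × Bool)) : Prop := 4 * #(T1 (ext g) N) + 4 < N

open Classical in
theorem few1_le {N : ℕ} (p : Fin N → Option (Q × Bool) → ℝ) (hp : ∀ k, PW (p k)) :
    ∑ g : Fin N → Option (Q × Bool) with Few1 g, ∏ k, p k (g k) ≤ (1 / Real.sqrt 2) ^ N := by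
  have h1 := cost_sum N p hp
  have hs0 : (0 : ℝ) < Real.sqrt 2 := Real.sqrt_pos.2 (by norm_num)
  have hs1 : (1 : ℝ) ≤ Real.sqrt 2 := by
    rw [Real.one_le_sqrt]
    norm_num
  have hs2 : Real.sqrt 2 ^ 2 = 2 := Real.sq_sqrt (by norm_num)
  have h2 : (Real.sqrt 2) ^ (3 * N) *
      ∑ g : Fin N → Option (Q × Bool) with Few1 g, ∏ k, p k (g k) ≤
      ∑ g : Fin N → Option (Q × Bool), (∏ k, p k (g k)) *
      16 ^ (lz (ext g) N + 4 * pops (ext g) N) := by
    rw [mul_sum, sum_filter]
    apply sum_le_sum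
    intro g _
    have h3 : 0 ≤ ∏ k, p k (g k) := prod_nonneg fun k _ => (hp k).nn _
    split_ifs with h4
    · rw [mul_comm]
      apply mul_le_mul_of_nonneg_left _ h3
      have h5 := T1_card (ext g) N
      have h6 : 4 * #(T1 (ext g) N) + 4 < N := h4
      have h7 : (16 : ℝ) ^ (lz (ext g) N + 4 * pops (ext g) N) =
          Real.sqrt 2 ^ (8 * (lz (ext g) N + 4 * pops (ext g) N)) := by
        rw [pow_mul, show (8 : ℕ) = 2 * 4 by norm_num, pow_mul, hs2]
        norm_num
      rw [h7]
      apply pow_le_pow_right₀ hs1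
      omega
    · exact mul_nonneg h3 (by positivity)
  have h3 := h2.trans h1
  have h5 : (2 : ℝ) ^ N = Real.sqrt 2 ^ (2 * N) := by
    rw [pow_mul, hs2]
  rw [h5] at h3
  have h6 : (Real.sqrt 2) ^ (3 * N) = Real.sqrt 2 ^ (2 * N) * Real.sqrt 2 ^ N := by
    rw [← pow_add]
    congr 1
    ring
  rw [h6] at h3
  rw [one_div, inv_pow, ← one_div, le_div_iff₀ (by positivity)]
  have h7 : (0 : ℝ) < Real.sqrt 2 ^ (2 * N) := by positivity
  have h8 : Real.sqrt 2 ^ (2 * N) *
      ((∑ g : Fin N → Option (Q × Bool) with Few1 g, ∏ k, p k (g k)) * Real.sqrt 2 ^ N) ≤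
      Real.sqrt 2 ^ (2 * N) * 1 := by
    rw [mul_one]
    calc _ = Real.sqrt 2 ^ (2 * N) * Real.sqrt 2 ^ N *
        ∑ g : Fin N → Option (Q × Bool) with Few1 g, ∏ k, p k (g k) := by ring
      _ ≤ _ := h3
  exact le_of_mul_le_mul_left h8 h7

end

end Pool.Agent.Helper99.FS
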